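import Mathlib
import Pool.Agent.Lib.RM48.Defs

/-!
# Definitions for the statement: `𝔯_osc < cov(𝒩)` in a model of set theory
-/

set_option autoImplicit false

open Filter MeasureTheory

namespace Pool.Agent.Lib.RM48

open Pool.Agent.Lib.SymZF

/-! ### Relative densities -/

/-- The ratio `|A ∩ B ∩ n| / |B ∩ n|`. -/
noncomputable def relDensity (B A : Set ℕ) (n : ℕ) : ℝ :=
  ((A ∩ B ∩ Set.Iio n).ncard : ℝ) / ((B ∩ Set.Iio n).ncard : ℝ)

/-- The lower density of `A` in `B`. -/
noncomputable def lowerDensity (B A : Set ℕ) : ℝ := liminf (relDensity B A) atTop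

/-- The upper density of `A` in `B`. -/
noncomputable def upperDensity (B A : Set ℕ) : ℝ := limsup (relDensity B A) atTop

/-- The density of `A` in `B` does not oscillate. -/
def NonOsc (B A : Set ℕ) : Prop := lowerDensity B A = upperDensity B A

/-! ### Null sets -/

/-- The fair coin measure on `{0,1}^ℕ`: the product of the uniform measures on `{0,1}`. -/
noncomputable def coin : Measure (ℕ → Bool) :=
  Measure.infinitePi fun _ => (PMF.uniformOfFintype Bool).toMeasure

/-- The open set `O_n(c)` of `{0,1}^ω` coded by the set `c` of natural numbers: the union of the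
basic open sets given by the finite 0-1-strings `s` with `⟨n, s⟩ ∈ c`. -/
def OSet (c : Set ℕ) (n : ℕ) : Set (ℕ → Bool) :=
  {y | ∃ s : List Bool, Nat.pair n (Encodable.encode s) ∈ c ∧
    ∀ i (h : i < s.length), y i = s[i]}

/-- `c` codes a sequence of open sets `O_n(c)` of measure at most `2^{-n}`. -/
def NullCode (c : Set ℕ) : Prop := ∀ n, coin (OSet c n) ≤ (1 / 2) ^ n

open Classical in
/-- The point of `{0,1}^ω` given by a set of natural numbers. -/
noncomputable def chi (x : Set ℕ) : ℕ → Bool := fun n => decide (n ∈ x)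

section

variable {M : Type} (E : M → M → Prop)

/-- `N` is a null set in `M`: in `M` there is a sequence of open sets `O_n` of measure at most
`2^{-n}` such that every real of `M` which is an element of `N` is in all of them. -/
def IsNull (N : M) : Prop := ∃ c, IsReal E c ∧ NullCode (rl E c) ∧
  ∀ x, IsReal E x → E x N → ∀ n, chi (rl E x) ∈ OSet (rl E c) n

/-- `𝓡` is a family as in the definition of `𝔯_osc`, in `M`: a set of infinite sets of natural
numbers such that for every infinite coinfinite set `S` there is `R ∈ 𝓡` for which `d_R(S)` does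
not oscillate. -/
def IsOscFamily (𝓡 : M) : Prop :=
  (∀ R, E R 𝓡 → IsReal E R ∧ (rl E R).Infinite) ∧
  ∀ S, IsReal E S → (rl E S).Infinite → (rl E S)ᶜ.Infinite →
    ∃ R, E R 𝓡 ∧ NonOsc (rl E R) (rl E S)

/-- `|A| < cov(𝒩)` in `M`: for every function `f` of `M` on the set `A` whose values are null sets
there is a real of `M` which is in none of the null sets `f(a)`, `a ∈ A`. -/
def LtCovNull (A : M) : Prop :=
  ∀ f, (∀ a, E a A → ∃! N, Rel E f a N) → (∀ a N, E a A → Rel E f a N → IsNull E N) →
    ∃ x, IsReal E x ∧ ∀ a N, E a A → Rel E f a N → ¬ E x N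

/-- `𝔯_osc < cov(𝒩)` holds in `M`: there is a family `𝓡` as in the definition of `𝔯_osc` with
`|𝓡| < cov(𝒩)`. -/
def ROscLtCovNull : Prop := ∃ 𝓡, IsOscFamily E 𝓡 ∧ LtCovNull E 𝓡

end

end Pool.Agent.Lib.RM48
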