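import Mathlib
import Pool.Agent.Lib.RM48.Osc.Density
import Pool.Agent.Lib.RM48.FmlX

/-!
# The predicates for reals are Borel
-/

set_option autoImplicit false

open Filter Topology MeasureTheory

namespace Pool.Agent.Lib.RM48

open Pool.Agent.Lib.KZF

/-- predicates which depend on finitely many bits -/
lemma isBor_fin (m : ℕ) (P : (ℕ → Prop) → Prop)
    (h : ∀ r r' : ℕ → Prop, (∀ n < m, (r n ↔ r' n)) → (P r ↔ P r')) : IsBor P := by
  have h1 : IsBor (fun r => ∃ F : Finset ℕ, (∀ n : ℕ, n < m → (r n ↔ n ∈ F)) ∧ P (fun n => n ∈ F)) :=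
    IsBor.ex fun F => (IsBor.all fun n => (IsBor.const _).imp
      ((IsBor.atom n).iff (IsBor.const _))).and (IsBor.const _)
  refine h1.congr fun r => ?_
  constructor
  · rintro ⟨F, h2, h3⟩
    exact (h r _ h2).2 h3
  · intro hr
    classical
    refine ⟨(Finset.range m).filter r, fun n hn => by simp [hn], ?_⟩
    refine (h r _ fun n hn => ?_).1 hr
    simp [hn]

lemma isBor_evn {P : (ℕ → Prop) → Prop} (h : IsBor P) : IsBor (fun r => P (evn r)) :=
  h.comp fun n => IsBor.atom (2 * n)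

lemma isBor_odn {P : (ℕ → Prop) → Prop} (h : IsBor P) : IsBor (fun r => P (odn r)) :=
  h.comp fun n => IsBor.atom (2 * n + 1)

lemma relDensity_mem (B A : Set ℕ) (n : ℕ) : relDensity B A n ∈ Set.Icc (0 : ℝ) 1 := by
  unfold relDensity
  have hfin : (B ∩ Set.Iio n).Finite := (Set.finite_Iio n).subset Set.inter_subset_right
  have h1 : (A ∩ B ∩ Set.Iio n).ncard ≤ (B ∩ Set.Iio n).ncard :=
    Set.ncard_le_ncard (fun x hx => ⟨hx.1.2, hx.2⟩) hfin
  refine ⟨by positivity, ?_⟩
  refine div_le_one_of_le₀ ?_ (by positivity)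
  exact_mod_cast h1

lemma nonOsc_iff (B A : Set ℕ) : NonOsc B A ↔ ∀ k : ℕ, ∃ N : ℕ, ∀ n n' : ℕ, N ≤ n → N ≤ n' →
    |relDensity B A n - relDensity B A n'| ≤ 1 / ((k : ℝ) + 1) := by
  constructor
  · intro h
    have hb1 : IsBoundedUnder (· ≤ ·) atTop (relDensity B A) :=
      isBoundedUnder_of ⟨1, fun n => (relDensity_mem B A n).2⟩
    have hb2 : IsBoundedUnder (· ≥ ·) atTop (relDensity B A) :=
      isBoundedUnder_of ⟨0, fun n => (relDensity_mem B A n).1⟩
    have ht : Tendsto (relDensity B A) atTop (𝓝 (upperDensity B A)) :=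
      tendsto_of_liminf_eq_limsup h rfl hb1 hb2
    have hc := ht.cauchySeq
    rw [Metric.cauchySeq_iff] at hc
    intro k
    obtain ⟨N, hN⟩ := hc (1 / ((k : ℝ) + 1)) (by positivity)
    refine ⟨N, fun n n' hn hn' => ?_⟩
    have := hN n hn n' hn'
    rw [Real.dist_eq] at this
    exact this.le
  · intro h
    have hc : CauchySeq (relDensity B A) := by
      rw [Metric.cauchySeq_iff]
      intro ε hε
      obtain ⟨k, hk⟩ := exists_nat_one_div_lt hε
      obtain ⟨N, hN⟩ := h k
      refine ⟨N, fun n hn n' hn' => ?_⟩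
      rw [Real.dist_eq]
      exact (hN n n' hn hn').trans_lt hk
    obtain ⟨L, hL⟩ := cauchySeq_tendsto_of_complete hc
    exact nonOsc_of_tendsto hL

lemma isBor_nonOsc : IsBor (fun r => NonOsc {n | evn r n} {n | odn r n}) := by
  have h1 : IsBor (fun r : ℕ → Prop => ∀ k : ℕ, ∃ N : ℕ, ∀ n n' : ℕ, N ≤ n → N ≤ n' →
      |relDensity {n | evn r n} {n | odn r n} n - relDensity {n | evn r n} {n | odn r n} n'| ≤
        1 / ((k : ℝ) + 1)) := by
    refine IsBor.all fun k => IsBor.ex fun N => IsBor.all fun n => IsBor.all fun n' =>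
      (IsBor.const _).imp ((IsBor.const _).imp ?_)
    refine isBor_fin (2 * (n + n') + 2) _ ?_
    intro r r' hr
    have h2 : ∀ m, m ≤ n + n' →
        relDensity {n | evn r n} {n | odn r n} m = relDensity {n | evn r' n} {n | odn r' n} m := by
      intro m hm
      unfold relDensity
      congr 2
      · congr 1
        ext i
        simp only [Set.mem_inter_iff, Set.mem_ofPred_eq, Set.mem_Iio, evn, odn]
        constructor
        · rintro ⟨⟨h3, h4⟩, h5⟩
          exact ⟨⟨(hr _ (by omega)).1 h3, (hr _ (by omega)).1 h4⟩, h5⟩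
        · rintro ⟨⟨h3, h4⟩, h5⟩
          exact ⟨⟨(hr _ (by omega)).2 h3, (hr _ (by omega)).2 h4⟩, h5⟩
      · congr 1
        ext i
        simp only [Set.mem_inter_iff, Set.mem_ofPred_eq, Set.mem_Iio, evn]
        constructor
        · rintro ⟨h3, h5⟩
          exact ⟨(hr _ (by omega)).1 h3, h5⟩
        · rintro ⟨h3, h5⟩
          exact ⟨(hr _ (by omega)).2 h3, h5⟩
    rw [h2 n (by omega), h2 n' (by omega)]
  exact h1.congr fun r => (nonOsc_iff _ _).symm

lemma isBor_infinite : IsBor (fun r => {n : ℕ | r n}.Infinite) := by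
  have h1 : IsBor (fun r : ℕ → Prop => ∀ m : ℕ, ∃ n : ℕ, m < n ∧ r n) :=
    IsBor.all fun m => IsBor.ex fun n => (IsBor.const _).and (IsBor.atom n)
  refine h1.congr fun r => ?_
  constructor
  · intro h
    refine Set.infinite_of_not_bddAbove ?_
    rintro ⟨m, hm⟩
    obtain ⟨n, hn, hr⟩ := h m
    exact absurd (hm hr) (by omega)
  · intro h m
    obtain ⟨n, hn, hm⟩ := h.exists_gt m
    exact ⟨n, hm, hn⟩

lemma oSet_mono {c c' : Set ℕ} (h : c ⊆ c') (n : ℕ) : OSet c n ⊆ OSet c' n := by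
  rintro y ⟨s, hs, hy⟩
  exact ⟨s, h hs, hy⟩

lemma nullCode_iff (c : Set ℕ) : NullCode c ↔
    ∀ n N : ℕ, coin (OSet (c ∩ Set.Iio N) n) ≤ (1 / 2) ^ n := by
  constructor
  · intro h n N
    exact (measure_mono (oSet_mono Set.inter_subset_left n)).trans (h n)
  · intro h n
    have h1 : OSet c n = ⋃ N, OSet (c ∩ Set.Iio N) n := by
      apply Set.Subset.antisymm
      · rintro y ⟨s, hs, hy⟩
        exact Set.mem_iUnion.2 ⟨Nat.pair n (Encodable.encode s) + 1, s, ⟨hs, Nat.lt_succ_self _⟩, hy⟩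
      · exact Set.iUnion_subset fun N => oSet_mono Set.inter_subset_left n
    have hmono : Monotone fun N => OSet (c ∩ Set.Iio N) n := by
      intro N N' hN
      exact oSet_mono (Set.inter_subset_inter_right c (Set.Iio_subset_Iio hN)) n
    rw [h1, hmono.measure_iUnion]
    exact iSup_le fun N => h n N

lemma isBor_nullCode : IsBor (fun r => NullCode {n | r n}) := by
  have h1 : IsBor (fun r : ℕ → Prop => ∀ n N : ℕ,
      coin (OSet ({n | r n} ∩ Set.Iio N) n) ≤ (1 / 2) ^ n) := by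
    refine IsBor.all fun n => IsBor.all fun N => isBor_fin N _ ?_
    intro r r' hr
    have h2 : ({n | r n} ∩ Set.Iio N : Set ℕ) = {n | r' n} ∩ Set.Iio N := by
      ext i
      simp only [Set.mem_inter_iff, Set.mem_ofPred_eq, Set.mem_Iio]
      constructor
      · rintro ⟨h3, h4⟩
        exact ⟨(hr i h4).1 h3, h4⟩
      · rintro ⟨h3, h4⟩
        exact ⟨(hr i h4).2 h3, h4⟩
    rw [h2]
  exact h1.congr fun r => (nullCode_iff _).symm

lemma isBor_inG : IsBor (fun r => ∀ n, chi {n | odn r n} ∈ OSet {n | evn r n} n) := by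
  refine IsBor.all fun n => ?_
  have h1 : IsBor (fun r : ℕ → Prop => ∃ s : List Bool, evn r (Nat.pair n (Encodable.encode s)) ∧
      ∀ i : Fin s.length, (odn r i.1 ↔ s[i] = true)) :=
    IsBor.ex fun s => (isBor_evn (IsBor.atom _)).and (IsBor.all fun i =>
      (isBor_odn (IsBor.atom _)).iff (IsBor.const _))
  refine h1.congr fun r => ?_
  have key : ∀ (s : List Bool) (i : ℕ) (h : i < s.length),
      (odn r i ↔ s[i] = true) ↔ chi {n | odn r n} i = s[i] := by
    intro s i h
    unfold chi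
    cases hs : s[i] <;> simp
  constructor
  · rintro ⟨s, h2, h3⟩
    exact ⟨s, h2, fun i h => (key s i h).1 (h3 ⟨i, h⟩)⟩
  · rintro ⟨s, h2, h3⟩
    exact ⟨s, h2, fun i => (key s i.1 i.2).2 (h3 i.1 i.2)⟩

/-- the Borel relations -/
def PB : ℕ → Set ℕ → Set ℕ → Prop
  | 0 => fun R S => NonOsc R S
  | 1 => fun R _ => R.Infinite
  | 2 => fun c _ => NullCode c
  | 3 => fun c x => ∀ n, chi x ∈ OSet c n
  | _ => fun _ _ => True

lemma isBor_PB (k : ℕ) : IsBor (fun r => PB k {n | evn r n} {n | odn r n}) := by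
  match k with
  | 0 => exact isBor_nonOsc
  | 1 => exact isBor_evn isBor_infinite
  | 2 => exact isBor_evn isBor_nullCode
  | 3 => exact isBor_inG
  | (_ + 4) => exact IsBor.const True

/-- the codes of the Borel relations -/
noncomputable def CB (k : ℕ) : BF := (isBor_PB k).choose

lemma sem_CB (k : ℕ) (x y : ℕ → Prop) : (CB k).sem (jn x y) ↔ PB k {n | x n} {n | y n} := by
  have h : (CB k).sem (jn x y) ↔ PB k {n | evn (jn x y) n} {n | odn (jn x y) n} :=
    (isBor_PB k).choose_spec (jn x y)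
  rw [evn_jn, odn_jn] at h
  exact h

end Pool.Agent.Lib.RM48
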