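import Mathlib
import Pool.Agent.Lib.RM48.Names
import Pool.Agent.Lib.RM48.Osc.Borel

/-!
# `𝔯_osc < cov(𝒩)` in the random model
-/

set_option autoImplicit false

open Set MeasureTheory Cardinal

namespace Pool.Agent.Lib.RM48

open Pool.Agent.Lib.SymZF Pool.Agent.Lib.SymZF.SymSys Name Pool.Agent.Lib.KZF

/-! ### The formula -/

/-- `v 0` is a code of a null set which contains (the reals in) all `N` with
`(v (r + 1), N) ∈ v (f + 1)` -/
def fBody (f r : ℕ) : FmlX := ((FmlX.real 0).and (FmlX.bor 2 0 0)).and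
  (FmlX.all (FmlX.all ((xRel (f + 3) (r + 3) 1).imp ((FmlX.real 0).imp
    ((FmlX.mem 0 1).imp (FmlX.bor 3 2 0))))))

/-- the sentence -/
def fOsc : FmlX :=
  FmlX.ex (((FmlX.all ((FmlX.mem 0 1).imp ((FmlX.real 0).and (FmlX.bor 1 0 0)))).and
    (FmlX.all ((FmlX.real 0).imp (FmlX.ex ((FmlX.mem 0 2).and (FmlX.bor 0 0 1)))))).and
    (FmlX.all (FmlX.ex ((FmlX.real 0).and (FmlX.all ((FmlX.mem 0 3).imp
      ((FmlX.ex (fBody 2 0)).imp (FmlX.all ((xRel 3 1 0).imp (FmlX.neg (FmlX.mem 2 0)))))))))))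

lemma satX_bor' {M : Type} (E : M → M → Prop) (k i j : ℕ) (v : ℕ → M) :
    SatX E CB (.bor k i j) v ↔ PB k (rl E (v i)) (rl E (v j)) := by
  rw [satX_bor, sem_CB]
  rfl

theorem osc_of_sat {M : Type} (E : M → M → Prop) (v : ℕ → M) (h : SatX E CB fOsc v) :
    ROscLtCovNull E := by
  simp only [fOsc, fBody, satX_ex, satX_and, satX_all, satX_imp, satX_mem, satX_real, satX_bor',
    satX_neg, satX_xRel, scons_zero, scons_one, scons_two, scons_three, scons_four,
    Nat.reduceAdd, Nat.zero_add, scons_five] at h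
  obtain ⟨𝓡, ⟨h1, h2⟩, h3⟩ := h
  refine ⟨𝓡, ⟨h1, fun S hS _ _ => h2 S hS⟩, ?_⟩
  intro f hf hnull
  obtain ⟨x, hx, hx2⟩ := h3 f
  refine ⟨x, hx, fun a N ha hN => ?_⟩
  refine hx2 a ha ?_ N hN
  obtain ⟨c, hc, hc2, hc3⟩ := hnull a N ha hN
  refine ⟨c, ⟨hc, hc2⟩, fun N' y hN' hy hyN => ?_⟩
  have h4 : N' = N := (hf a ha).unique hN' hN
  subst h4
  exact hc3 y hy hyN

/-! ### The Boolean value -/

section val

variable {B : Type} [CompleteBooleanAlgebra B]

/-- the Boolean value of `fBody` -/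
noncomputable def bodyv (c f r : (tS B).HSet) : B :=
  (rlv c ⊓ (CB 2).bs (jn (bit c) (bit c))) ⊓ ⨅ N : (tS B).HSet, ⨅ y : (tS B).HSet,
    relv f r N ⇨ (rlv y ⇨ (y.mem N ⇨ (CB 3).bs (jn (bit c) (bit y))))

lemma bvalX_fBody (f r : ℕ) (c : (tS B).HSet) (v : ℕ → (tS B).HSet) :
    bvalX CB (fBody f r) (scons c v) = bodyv c (v f) (v r) := by
  simp only [fBody, bvalX_and, bvalX_all, bvalX_imp, bvalX_mem, bvalX_real, bvalX_bor,
    bvalX_xRel, scons_zero, scons_succ]
  rfl

end val

variable {K : Type}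

/-- the filter of the random algebra -/
noncomputable abbrev FK (K : Type) : Filter (K → ℕ → Bool) :=
  ae (Measure.infinitePi fun _ : K => coin)

lemma ccf_FK (K : Type) : CCF (K → ℕ → Bool) (FK K) := ccf_ae _

/-- the names of the random algebra -/
noncomputable abbrev HK (K : Type) : Type 1 := (tS (RO (Pos (K → ℕ → Bool) (FK K)))).HSet

lemma chi_of (y : ℕ → Bool) : chi {n | y n = true} = y := by
  funext n
  unfold chi
  cases h : y n <;> simp [h]

/-- fresh random reals avoid the null sets of a family indexed by the reals of the ground model -/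
theorem exists_fresh (hK : 𝔠 < #K) (f : HK K) : ∃ x : HK K, rlv x = ⊤ ∧
    ∀ (r : Set ℕ) (N : HK K),
      (⨆ c : HK K, bodyv c f (ck (FK K) r)) ⊓ (relv f (ck (FK K) r) N ⊓ x.mem N) = ⊥ := by
  classical
  -- codes
  have h1 : ∀ r : Set ℕ, ∃ c : HK K, bodyv c f (ck (FK K) r) =
      ⨆ c : HK K, bodyv c f (ck (FK K) r) := by
    intro r
    have h := exists_max (B := RO (Pos (K → ℕ → Bool) (FK K)))
      (fun c => bvalX CB (fBody 0 1) (scons c (scons f (fun _ => ck (FK K) r))))
      (fun x y => bvalX_congr_scons CB (fBody 0 1) x y _)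
    simp only [bvalX_fBody, scons_zero, scons_one] at h
    exact h
  choose c hc using h1
  choose A hA hcA using fun r => exists_rv (ccf_FK K) (c r)
  -- the null sets
  let Ns : Set ℕ → Set ((K → ℕ → Bool) × (ℕ → Bool)) := fun r =>
    {p | NullCode {n | p.1 ∈ A r n} ∧ ∀ n, p.2 ∈ OSet {n | p.1 ∈ A r n} n}
  have hNs : ∀ r, MeasurableSet (Ns r) := by
    intro r
    have hm1 : ∀ n, MeasurableSet {p : (K → ℕ → Bool) × (ℕ → Bool) | p.1 ∈ A r n} :=
      fun n => measurable_fst (hA r n)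
    have hm2 : ∀ n, MeasurableSet {p : (K → ℕ → Bool) × (ℕ → Bool) | p.2 n = true} := by
      intro n
      have : Measurable fun p : (K → ℕ → Bool) × (ℕ → Bool) => p.2 n :=
        (measurable_pi_apply n).comp measurable_snd
      exact this (MeasurableSet.singleton true)
    have e1 := meas_jn (CB 2) (PB 2) (sem_CB 2)
      (fun n => {p : (K → ℕ → Bool) × (ℕ → Bool) | p.1 ∈ A r n})
      (fun n => {p : (K → ℕ → Bool) × (ℕ → Bool) | p.2 n = true}) hm1 hm2
    have e2 := meas_jn (CB 3) (PB 3) (sem_CB 3)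
      (fun n => {p : (K → ℕ → Bool) × (ℕ → Bool) | p.1 ∈ A r n})
      (fun n => {p : (K → ℕ → Bool) × (ℕ → Bool) | p.2 n = true}) hm1 hm2
    have e3 : Ns r = {p : (K → ℕ → Bool) × (ℕ → Bool) | PB 2 {n | p.1 ∈ A r n} {n | p.2 n = true}}
        ∩ {p | PB 3 {n | p.1 ∈ A r n} {n | p.2 n = true}} := by
      ext p
      simp only [Ns, PB, mem_inter_iff, mem_ofPred_eq, chi_of]
    rw [e3]
    exact e1.inter e2
  have hnull : ∀ r, ∀ z : K → ℕ → Bool, coin {y | (z, y) ∈ Ns r} = 0 := by
    intro r z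
    by_cases hz : NullCode {n | z ∈ A r n}
    · have h2 : ∀ n : ℕ, coin {y | (z, y) ∈ Ns r} ≤ (1 / 2) ^ n := by
        intro n
        refine le_trans (measure_mono ?_) (hz n)
        intro y hy
        exact hy.2 n
      refine le_antisymm (le_of_forall_gt fun a ha => ?_) bot_le
      have h3 : Filter.Tendsto (fun n : ℕ => ((1 : ENNReal) / 2) ^ n) Filter.atTop (nhds 0) := by
        apply ENNReal.tendsto_pow_atTop_nhds_zero_of_lt_one
        rw [one_div]
        exact ENNReal.inv_lt_one.2 (by norm_num)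
      obtain ⟨n, hn⟩ := (h3.eventually (gt_mem_nhds ha)).exists
      exact (h2 n).trans_lt hn
    · have h2 : {y | (z, y) ∈ Ns r} = ∅ := by
        ext y
        simp only [mem_ofPred_eq, mem_empty_iff_false, iff_false]
        exact fun h => hz h.1
      rw [h2, measure_empty]
  choose S hS hS2 using fun r => exists_countable_support (Ns r) (hNs r)
  have hcard : #(⋃ r, S r) < #K := by
    calc #(⋃ r, S r) ≤ Cardinal.sum fun r => #(S r) := Cardinal.mk_iUnion_le_sum_mk
      _ ≤ Cardinal.sum fun _ : Set ℕ => ℵ₀ :=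
          Cardinal.sum_le_sum _ _ fun r => Cardinal.le_aleph0_iff_set_countable.2 (hS r)
      _ = #(Set ℕ) * ℵ₀ := by simp
      _ ≤ max (max #(Set ℕ) ℵ₀) ℵ₀ := Cardinal.mul_le_max _ _
      _ < #K := by
          have h3 : #(Set ℕ) = 𝔠 := by simp
          rw [h3, max_lt_iff, max_lt_iff]
          exact ⟨⟨hK, Cardinal.aleph0_lt_continuum.trans hK⟩, Cardinal.aleph0_lt_continuum.trans hK⟩
  have hne : (⋃ r, S r) ≠ Set.univ := by
    intro h
    rw [h, Cardinal.mk_univ] at hcard
    exact lt_irrefl _ hcard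
  obtain ⟨k, hk⟩ := (Set.ne_univ_iff_exists_notMem _).1 hne
  have hav : ∀ r, ∀ᵐ z ∂(Measure.infinitePi fun _ : K => coin), (z, z k) ∉ Ns r := fun r =>
    fresh_avoids (Ns r) (hNs r) (Filter.Eventually.of_forall (hnull r)) (S r) (hS2 r) k
      fun h => hk (mem_iUnion.2 ⟨r, h⟩)
  -- the fresh real
  let A' : ℕ → Set (K → ℕ → Bool) := fun n => {z | z k n = true}
  have hA' : ∀ n, MeasurableSet (A' n) := by
    intro n
    have : Measurable fun z : K → ℕ → Bool => z k n :=
      (measurable_pi_apply n).comp (measurable_pi_apply k)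
    exact this (MeasurableSet.singleton true)
  refine ⟨rA (FK K) A', rlv_rn _, fun r N => ?_⟩
  have hb : bit (rA (FK K) A') = fun n => el (FK K) (A' n) := bit_rn _
  have e2 := bs_jn (F := FK K) (CB 2) (PB 2) (sem_CB 2) (A r) (A r) (hA r) (hA r)
  have e3 := bs_jn (F := FK K) (CB 3) (PB 3) (sem_CB 3) (A r) A' (hA r) hA'
  rw [← le_bot_iff, ← hc r]
  have h4 : bodyv (c r) f (ck (FK K) r) ⊓ (relv f (ck (FK K) r) N ⊓ (rA (FK K) A').mem N) ≤
      (CB 2).bs (jn (bit (c r)) (bit (c r))) ⊓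
        (CB 3).bs (jn (bit (c r)) (bit (rA (FK K) A'))) := by
    refine le_inf (inf_le_left.trans (inf_le_left.trans inf_le_right)) ?_
    have h5 : bodyv (c r) f (ck (FK K) r) ≤ relv f (ck (FK K) r) N ⇨ (rlv (rA (FK K) A') ⇨
        ((rA (FK K) A').mem N ⇨ (CB 3).bs (jn (bit (c r)) (bit (rA (FK K) A'))))) :=
      inf_le_right.trans ((iInf_le _ N).trans (iInf_le _ (rA (FK K) A')))
    have h6 : rlv (rA (FK K) A') = ⊤ := rlv_rn _
    rw [h6, top_himp] at h5
    have h7 := (inf_le_inf_right (relv f (ck (FK K) r) N) h5).trans himp_inf_le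
    exact (le_inf ((le_inf inf_le_left (inf_le_right.trans inf_le_left)).trans h7)
      (inf_le_right.trans inf_le_right)).trans himp_inf_le
  refine h4.trans ?_
  rw [hb, hcA r, e2.2, e3.2, ← el_inter e2.1 e3.1, le_bot_iff, el_eq_bot (e2.1.inter e3.1)]
  refine Filter.mem_of_superset (hav r) ?_
  intro z hz
  rintro ⟨h8, h9⟩
  refine hz ⟨h8, fun n => ?_⟩
  have h10 : chi {n | z ∈ A' n} ∈ OSet {n | z ∈ A r n} n := h9 n
  rwa [show ({n | z ∈ A' n} : Set ℕ) = {n | z k n = true} from rfl, chi_of] at h10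

/-- the sentence has Boolean value `⊤` -/
theorem bvalX_fOsc (hK : 𝔠 < #K) (v : ℕ → HK K) : bvalX CB fOsc v = ⊤ := by
  classical
  let I : Type := {r : Set ℕ // r.Infinite}
  let 𝓡 : HK K := fm (fun r : I => ck (FK K) r.1) (fun _ => ⊤)
  simp only [fOsc, bvalX_ex, bvalX_and, bvalX_all, bvalX_imp, bvalX_mem, bvalX_real, bvalX_bor,
    bvalX_neg, bvalX_xRel, bvalX_fBody, scons_zero, scons_one, scons_two, scons_three]
  rw [eq_top_iff]
  refine le_iSup_of_le 𝓡 (le_inf (le_inf ?_ ?_) ?_)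
  · -- the elements of 𝓡 are infinite sets
    refine le_iInf fun R => ?_
    rw [le_himp_iff, top_inf_eq]
    have h1 := le_of_fm (B := RO (Pos (K → ℕ → Bool) (FK K))) (fun r : I => ck (FK K) r.1)
      (fun R => bvalX CB ((FmlX.real 0).and (FmlX.bor 1 0 0)) (scons R v))
      (fun x y => bvalX_congr_scons CB _ x y _) (fun r => ?_) R
    · simpa only [bvalX_and, bvalX_real, bvalX_bor, scons_zero] using h1
    · simp only [bvalX_and, bvalX_real, bvalX_bor, scons_zero]
      have hm : ∀ n, MeasurableSet (if n ∈ r.1 then univ else ∅ : Set (K → ℕ → Bool)) := by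
        intro n
        split_ifs
        · exact MeasurableSet.univ
        · exact MeasurableSet.empty
      have hb : bit (ck (FK K) r.1) = fun n => el (FK K) (if n ∈ r.1 then univ else ∅) := bit_rn _
      have e1 := bs_jn (F := FK K) (CB 1) (PB 1) (sem_CB 1) _ _ hm hm
      have h2 : rlv (ck (FK K) r.1) = ⊤ := rlv_rn _
      rw [h2, hb, e1.2, top_inf_eq, el_eq_top e1.1]
      refine Filter.univ_mem' fun z => ?_
      have h3 : ({n | z ∈ (if n ∈ r.1 then univ else ∅ : Set (K → ℕ → Bool))} : Set ℕ) = r.1 := by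
        ext n
        by_cases h : n ∈ r.1 <;> simp [h]
      have h4 : PB 1 {n | z ∈ (if n ∈ r.1 then univ else ∅ : Set (K → ℕ → Bool))}
          {n | z ∈ (if n ∈ r.1 then univ else ∅ : Set (K → ℕ → Bool))} := by
        rw [h3]
        exact r.2
      exact h4
  · -- every random set has a density in some set of the ground model
    refine le_iInf fun S => ?_
    rw [le_himp_iff, top_inf_eq]
    refine le_trans le_top ?_
    obtain ⟨A, hA, hS⟩ := exists_rv (ccf_FK K) S
    obtain ⟨r, hr, hae⟩ := exists_deterministic (Measure.infinitePi fun _ : K => coin)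
      (S := fun z => {n | z ∈ A n}) (fun n => hA n)
    refine le_iSup_of_le (ck (FK K) r) (le_inf ?_ ?_)
    · have h1 : (ck (FK K) r).mem 𝓡 = ⊤ := mem_fm_top (fun r : I => ck (FK K) r.1) ⟨r, hr⟩
      exact h1.ge
    · have hm : ∀ n, MeasurableSet (if n ∈ r then univ else ∅ : Set (K → ℕ → Bool)) := by
        intro n
        split_ifs
        · exact MeasurableSet.univ
        · exact MeasurableSet.empty
      have hb : bit (ck (FK K) r) = fun n => el (FK K) (if n ∈ r then univ else ∅) := bit_rn _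
      have e1 := bs_jn (F := FK K) (CB 0) (PB 0) (sem_CB 0) _ A hm hA
      rw [hb, hS, e1.2, top_le_iff, el_eq_top e1.1]
      refine Filter.mem_of_superset hae ?_
      intro z hz
      have h3 : ({n | z ∈ (if n ∈ r then univ else ∅ : Set (K → ℕ → Bool))} : Set ℕ) = r := by
        ext n
        by_cases h : n ∈ r <;> simp [h]
      have h4 : PB 0 {n | z ∈ (if n ∈ r then univ else ∅ : Set (K → ℕ → Bool))}
          {n | z ∈ A n} := by
        rw [h3]
        exact hz
      exact h4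
  · -- fresh random reals
    refine le_iInf fun f => ?_
    obtain ⟨x, hx, hx2⟩ := exists_fresh hK f
    refine le_iSup_of_le x (le_inf ?_ ?_)
    · rw [hx]
    · refine le_iInf fun R => ?_
      rw [le_himp_iff, top_inf_eq]
      have h1 := le_of_fm (B := RO (Pos (K → ℕ → Bool) (FK K))) (fun r : I => ck (FK K) r.1)
        (fun R => bvalX CB ((FmlX.ex (fBody 2 0)).imp (FmlX.all ((xRel 3 1 0).imp
          (FmlX.neg (FmlX.mem 2 0))))) (scons R (scons x (scons f v))))
        (fun x y => bvalX_congr_scons CB _ x y _) (fun r => ?_) R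
      · simpa only [bvalX_ex, bvalX_and, bvalX_all, bvalX_imp, bvalX_mem, bvalX_real, bvalX_bor,
          bvalX_neg, bvalX_xRel, bvalX_fBody, scons_zero, scons_one, scons_two, scons_three]
          using h1
      · simp only [bvalX_ex, bvalX_and, bvalX_all, bvalX_imp, bvalX_mem, bvalX_real, bvalX_bor,
          bvalX_neg, bvalX_xRel, bvalX_fBody, scons_zero, scons_one, scons_two, scons_three]
        rw [eq_top_iff, le_himp_iff, top_inf_eq]
        refine le_iInf fun N => ?_
        rw [le_himp_iff, le_compl_iff_disjoint_right, disjoint_iff, inf_assoc]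
        exact hx2 r.1 N

/-- There is a countable well-founded model of `ZFC` in which `𝔯_osc < cov(𝒩)`. -/
theorem exists_osc_model : ∃ (M : Type) (E : M → M → Prop), Countable M ∧ WellFounded E ∧
    OmegaStd E ∧ IsZFC E ∧ ROscLtCovNull E := by
  let K : Type := Set (Set ℕ)
  have hK : 𝔠 < #K := by
    have h1 : #(Set ℕ) < #(Set (Set ℕ)) := by
      rw [Cardinal.mk_set (α := Set ℕ)]
      exact Cardinal.cantor _
    have h2 : #(Set ℕ) = 𝔠 := by simp
    rw [← h2]
    exact h1
  obtain ⟨M, E, h1, h2, h3, h4, h5⟩ := exists_model (RO (Pos (K → ℕ → Bool) (FK K))) CB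
  obtain ⟨w, _⟩ := h4.zf.infinity
  exact ⟨M, E, h1, h2, h3, h4, osc_of_sat E (fun _ => w) (h5 fOsc (bvalX_fOsc hK) _)⟩

end Pool.Agent.Lib.RM48
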